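import Pool.Agent.Q206.ATot.Build

/-!
# Every almost total enumeration degree is graph-cototal

The definitions `ERed`, `EEquiv`, `join`, `TotalDeg`, `AlmostTotal`, `coGraph`, `GraphCototal` are
in `Pool.Agent.Q206.ATot.Defs`.
-/

namespace Pool.Agent.Results.MP_c7b1db_lc.AlmostTotalGraphCototal

open Q206.ATot

/-- Every almost total enumeration degree contains the complement of the graph of a total
function. -/
theorem result (A : Set ℕ) (hA : AlmostTotal A) : GraphCototal A := graphCototal_of_almostTotal hA

end Pool.Agent.Results.MP_c7b1db_lc.AlmostTotalGraphCototal
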